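/-
MP_d9e400_an. Let f be entire and U a bounded component of the Fatou set with f(U) contained in U
on which f is not injective (so U is an attracting or a parabolic basin, not a Siegel disc).
If W is a bounded component of the complement of the closure of U then the boundary of W is
contained in the impression of a single prime end of U (and in no other impression), it is not the
whole boundary of U, and no iterate of f maps a point of W into the closure of U.
-/
import Mathlib
import Pool.Agent.TC.Final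

set_option autoImplicit false

open Set Filter Topology

namespace Pool.Agent.Results.MP_d9e400_an.NoLakesNonSiegel

theorem result :
    ∀ f : ℂ → ℂ, Differentiable ℂ f →
    ∀ F : Set ℂ,
      (∀ w : ℂ, w ∈ F ↔
        ∃ r : ℝ, 0 < r ∧
          ∀ φ : ℕ → ℕ, StrictMono φ →
            ∃ ψ : ℕ → ℕ, StrictMono ψ ∧
              ((∃ g : ℂ → ℂ,
                  TendstoLocallyUniformlyOn (fun k => f^[φ (ψ k)]) g atTop (Metric.ball w r)) ∨
               (∀ K : Set ℂ, K ⊆ Metric.ball w r → IsCompact K →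
                  ∀ M : ℝ, ∀ᶠ k in atTop, ∀ y ∈ K, M < ‖f^[φ (ψ k)] y‖))) →
    ∀ z ∈ F, ∀ U : Set ℂ, U = connectedComponentIn F z →
      Bornology.IsBounded U → Set.MapsTo f U U → ¬ Set.InjOn f U →
      ∃ φ : ℂ → ℂ, DifferentiableOn ℂ φ (Metric.ball 0 1) ∧ BijOn φ (Metric.ball 0 1) U ∧
        ∀ W : Set ℂ, Bornology.IsBounded W →
          (∃ b, b ∉ closure U ∧ W = connectedComponentIn (closure U)ᶜ b) →
          (∃ ζ : ℂ, ‖ζ‖ = 1 ∧ ∀ y ∈ frontier W, ∀ ζ' : ℂ, ‖ζ'‖ = 1 →
            (MapClusterPt y (𝓝[Metric.ball 0 1] ζ') φ ↔ ζ' = ζ)) ∧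
          frontier W ≠ frontier U ∧
          ∀ n : ℕ, Disjoint (f^[n] '' W) (closure U) := by
  intro f hf F hF z hz U hU hb hm hn
  subst hU
  obtain ⟨φ, h1, h2, h3⟩ := Pool.Agent.TC.final_lakes
    (Pool.Agent.TC.nbasin_of_fatou hf hF hz hb hm hn (mem_connectedComponentIn hz))
  refine ⟨φ, h1, h2, ?_⟩
  rintro W hWb ⟨b, hbU, rfl⟩
  exact h3 b hbU hWb

end Pool.Agent.Results.MP_d9e400_an.NoLakesNonSiegel
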