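/-
MP_d9e400_an. Let f be entire and U a bounded component of the Fatou set with f(U) contained in U
on which f is not injective (so U is an attracting or a parabolic basin, not a Siegel disc).
The inverse of the Riemann map of U extends continuously to the closure of U, with connected
fibres on the boundary; the boundary is a decomposable continuum; and if some path in the boundary
is not contained in one fibre, the boundary is a simple closed curve.
-/
import Mathlib
import Pool.Agent.TC.Final

set_option autoImplicit false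

open Set Filter Topology

namespace Pool.Agent.Results.MP_d9e400_an.PrimeEndMapNonSiegel

theorem result :
    ∀ f : ℂ → ℂ, Differentiable ℂ f →
    ∀ F : Set ℂ,
      (∀ w : ℂ, w ∈ F ↔
        ∃ r : ℝ, 0 < r ∧
          ∀ φ : ℕ → ℕ, StrictMono φ →
            ∃ ψ : ℕ → ℕ, StrictMono ψ ∧
              ((∃ g : ℂ → ℂ,
                  TendstoLocallyUniformlyOn (fun k => f^[φ (ψ k)]) g atTop (Metric.ball w r)) ∨
               (∀ K : Set ℂ, K ⊆ Metric.ball w r → IsCompact K →
                  ∀ M : ℝ, ∀ᶠ k in atTop, ∀ y ∈ K, M < ‖f^[φ (ψ k)] y‖))) →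
    ∀ z ∈ F, ∀ U : Set ℂ, U = connectedComponentIn F z →
      Bornology.IsBounded U → Set.MapsTo f U U → ¬ Set.InjOn f U →
      (∃ Φ : ℂ → ℂ, ContinuousOn Φ (closure U) ∧ DifferentiableOn ℂ Φ U ∧
        BijOn Φ U (Metric.ball 0 1) ∧ MapsTo Φ (frontier U) (Metric.sphere 0 1) ∧
        (∀ ζ ∈ Metric.sphere (0 : ℂ) 1, IsConnected {y | y ∈ frontier U ∧ Φ y = ζ}) ∧
        (∀ γ : ℝ → ℂ, ContinuousOn γ (Icc 0 1) → MapsTo γ (Icc 0 1) (frontier U) →
          Φ (γ 0) ≠ Φ (γ 1) → Nonempty (frontier U ≃ₜ Circle))) ∧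
      (∃ A B : Set ℂ, IsCompact A ∧ IsConnected A ∧ IsCompact B ∧ IsConnected B ∧
        A ∪ B = frontier U ∧ A ≠ frontier U ∧ B ≠ frontier U) := by
  intro f hf F hF z hz U hU hb hm hn
  subst hU
  exact Pool.Agent.TC.final_map
    (Pool.Agent.TC.nbasin_of_fatou hf hF hz hb hm hn (mem_connectedComponentIn hz))

end Pool.Agent.Results.MP_d9e400_an.PrimeEndMapNonSiegel
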